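import Pool.Agent.helper70.BND.SpecH

/-!
# bh:FLP (project bnd, MP_376aaf_an): a loop with the degrees `δ_x ∧ c_j`
-/

set_option autoImplicit false

open scoped Topology
open Finset

namespace Pool.Agent.BND.EX

theorem FLP_fc (l : Lv) (J : ℕ) (X X' : List ℕ) (h : X.Perm X') (v : ℕ) : fc l J X v = fc l J X' v := by
  unfold fc
  simp only [List.count_cons, List.count_append]
  rw [h.count_eq]

theorem FLP_fc' (l : Lv) (J : ℕ) (X : List ℕ) (v : ℕ) :
    fc l J X v = X.count v + fc l J [] v := by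
  unfold fc
  simp only [List.count_cons, List.count_append, List.count_nil]
  omega

theorem FLP_Nr {n : ℕ} {κ₀ κ₁ : ℕ → ℕ} {Cc : ℕ} {x y : ℕ → ℤ} (h : Nr n κ₀ κ₁ Cc x)
    (hxy : ∀ v, v < n → x v = y v) : Nr n κ₀ κ₁ Cc y := by
  obtain ⟨r, hr, h1⟩ := h
  refine ⟨r, hr, fun v hv => ?_⟩
  rw [← hxy v hv]
  exact h1 v hv

theorem FLP (hFCM : FCM_stmt) (hFBM : FBM_stmt) (hMKL : MKL_stmt) (hWDC : WDC_stmt) (hNPR : NPR_stmt)
    (hPTR : PTR_stmt) (hPSY : PSY_stmt) (hPRF : PRF_stmt) : FLP_stmt := by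
  intro A J κ₀ κ₁ Cc Bb X x j hG hX hx hj hB hN hN' hc
  obtain ⟨hLv, -, -, -, -, hWne, hgb⟩ := hMKL A hG
  obtain ⟨he, hcnt⟩ := hgb j hj
  generalize hedef : A.gb j = e at he hcnt
  have hn0 : 0 < A.n := hG.n0
  obtain ⟨Y, hY⟩ : ∃ Y, Y = wd A.n (fun v => X.count v - (-(A.c j v)).toNat - if v = x then 1 else 0) := ⟨_, rfl⟩
  have hYc := (hWDC A.n (fun v => X.count v - (-(A.c j v)).toNat - if v = x then 1 else 0)).1
  have hYm := (hWDC A.n (fun v => X.count v - (-(A.c j v)).toNat - if v = x then 1 else 0)).2.1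
  rw [← hY] at hYc hYm
  have hWm : ∀ b, ∀ v ∈ A.l.W e b, v < A.n := fun b v hv => hLv.mem e he b v hv
  have hW0 : ∀ b v, ¬ v < A.n → (A.l.W e b).count v = 0 := fun b v hv =>
    List.count_eq_zero.mpr fun h => hv (hWm b v h)
  -- the word is a permutation of `x w⁻ Y`
  have hperm : X.Perm ([x] ++ (A.l.W e false ++ Y)) := by
    rw [List.perm_iff_count]
    intro v
    simp only [List.count_append, List.count_singleton]
    by_cases hv : v < A.n
    · rw [(hcnt v hv).1, hYc v, if_pos hv]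
      have h1 := hc v hv
      by_cases hvx : v = x
      · subst hvx
        simp only [beq_self_eq_true, if_true]
        omega
      · have : (x == v) = false := by simpa using fun h => hvx h.symm
        simp only [this, hvx, if_false]
        have : (if false = true then 1 else 0 : ℕ) = 0 := rfl
        omega
    · rw [hW0 false v hv, hYc v, if_neg hv]
      have h1 : X.count v = 0 := List.count_eq_zero.mpr fun h => hv (hX v h)
      have h2 : (x == v) = false := by simpa using fun h : x = v => hv (h ▸ hx)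
      rw [h1, h2]
      rfl
  have hXne : X ≠ [] := by
    intro h
    have := hc x hx
    rw [h] at this
    simp at this
  -- members
  have hm1 : ∀ y ∈ [x] ++ Y, y < A.n := by
    intro y hy
    rcases List.mem_append.mp hy with h | h
    · rw [List.mem_singleton.mp h]
      exact hx
    · exact hYm y h
  have hm2 : ∀ b, ∀ y ∈ [x] ++ (A.l.W e b ++ Y), y < A.n := by
    intro b y hy
    rcases List.mem_append.mp hy with h | h
    · rw [List.mem_singleton.mp h]
      exact hx
    · rcases List.mem_append.mp h with h | h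
      · exact hWm b y h
      · exact hYm y h
  have hpb : ∀ b, ([x] ++ (A.l.W e b ++ Y)).Perm ([] ++ (A.l.W e b ++ (x :: Y))) := by
    intro b
    rw [List.nil_append, List.singleton_append]
    exact (List.perm_middle).symm
  have hN1 : Nr A.n κ₀ κ₁ Cc (fun v => (fc A.l J ([x] ++ (A.l.W e false ++ Y)) v : ℤ)) :=
    FLP_Nr hN fun v _ => by rw [FLP_fc A.l J _ _ hperm v]
  have hN2 : Nr A.n κ₀ κ₁ Cc (fun v => (fc A.l J ([] ++ (A.l.W e false ++ (x :: Y))) v : ℤ)) :=
    FLP_Nr hN1 fun v _ => by rw [FLP_fc A.l J _ _ (hpb false) v]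
  have hN3 : Nr A.n κ₀ κ₁ Cc (fun v => (fc A.l J ([x] ++ (A.l.W e true ++ Y)) v : ℤ)) := by
    refine FLP_Nr hN' fun v hv => ?_
    rw [FLP_fc A.l J _ _ hperm v, FLP_fc' A.l J ([x] ++ (A.l.W e false ++ Y)), FLP_fc' A.l J ([x] ++ (A.l.W e true ++ Y))]
    simp only [List.count_append]
    rw [(hcnt v hv).1, (hcnt v hv).2]
    push_cast
    omega
  -- the parts of the path
  have p1 := hFCM A J κ₀ κ₁ Cc Bb X _ hG hX hXne hB hN hperm
  have p2 := hFBM A J κ₀ κ₁ Cc Bb [x] Y e hG hm1 he hB hN1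
  have p3 := hFCM A J κ₀ κ₁ Cc Bb ([x] ++ (A.l.W e true ++ Y)) _ hG (hm2 true) (by simp) hB hN3 (hpb true)
  have p4 := hPSY _ _ _ _ _ _ (hFBM A J κ₀ κ₁ Cc Bb [] (x :: Y) e hG (by
    intro y hy
    exact hm1 y (by simpa using hy)) he hB hN2)
  have p5 := hFCM A J κ₀ κ₁ Cc Bb ([] ++ (A.l.W e false ++ (x :: Y))) X hG
    (fun y hy => hm2 false y ((hpb false).mem_iff.mpr hy)) (by simp) hB hN2 ((hperm.trans (hpb false)).symm)
  have p := hPTR _ _ _ _ _ _ _ _ _ p1 (hPTR _ _ _ _ _ _ _ _ _ p2 (hPTR _ _ _ _ _ _ _ _ _ p3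
    (hPTR _ _ _ _ _ _ _ _ _ p4 p5)))
  refine (hPRF A.l (Gd A.l J κ₀ κ₁ Cc Bb)).2 _ _ _ _ _ _ p ?_ (by simp)
  intro i _
  have hcancel : ∀ u v w z t : ℤ, u + (t + (v + (-t + w))) = u + v + w := fun u v w z t => by ring
  rw [hcancel _ _ _ 0 _]
  unfold dI dW
  by_cases hi : A.n ≤ i ∧ i < A.n + A.n * A.n ∧ (i - A.n) / A.n < (i - A.n) % A.n
  · simp only [if_pos hi]
    have hb : (i - A.n) % A.n < A.n := Nat.mod_lt _ hn0
    have ha : (i - A.n) / A.n < A.n := by omega
    generalize (i - A.n) / A.n = a at ha hi ⊢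
    generalize (i - A.n) % A.n = b at hb hi ⊢
    have h1 := (hNPR a b).2.1 x (A.l.W e true) Y
    have h2 := (hNPR a b).2.1 x (A.l.W e false) Y
    rw [(hcnt a ha).2, (hcnt b hb).2] at h1
    rw [(hcnt a ha).1, (hcnt b hb).1] at h2
    simp only [List.singleton_append, List.nil_append]
    have ea : A.c j a = ((A.c j a).toNat : ℤ) - ((-(A.c j a)).toNat : ℤ) := by omega
    have eb : A.c j b = ((A.c j b).toNat : ℤ) - ((-(A.c j b)).toNat : ℤ) := by omega
    have key : npr a b X - npr a b (x :: (A.l.W e false ++ Y)) +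
        (npr a b (x :: (A.l.W e true ++ Y)) - npr a b (A.l.W e true ++ x :: Y)) +
        (npr a b (A.l.W e false ++ x :: Y) - npr a b X) =
        (npr a b (x :: (A.l.W e true ++ Y)) - npr a b (A.l.W e true ++ x :: Y)) -
        (npr a b (x :: (A.l.W e false ++ Y)) - npr a b (A.l.W e false ++ x :: Y)) := by ring
    rw [key, h1, h2]
    by_cases hxa : x = a
    · by_cases hxb : x = b
      · rw [if_pos hxa, if_pos hxb, if_pos hxa, if_pos hxb, if_pos hxa.symm, if_pos hxb.symm]
        omega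
      · rw [if_pos hxa, if_neg hxb, if_pos hxa, if_neg hxb, if_pos hxa.symm, if_neg (fun h => hxb h.symm)]
        omega
    · by_cases hxb : x = b
      · rw [if_neg hxa, if_pos hxb, if_neg hxa, if_pos hxb, if_neg (fun h => hxa h.symm), if_pos hxb.symm]
        omega
      · rw [if_neg hxa, if_neg hxb, if_neg hxa, if_neg hxb, if_neg (fun h => hxa h.symm),
          if_neg (fun h => hxb h.symm)]
        omega
  · simp only [if_neg hi]
    ring

end Pool.Agent.BND.EX
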